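import Mathlib
import Pool.Agent.H86.CMLib.Y114.RM.Stm4
import Pool.Agent.H86.CMLib.Y620.RM.Cont
import Pool.Agent.H86.CMLib.Y220.RM.TFR0

/-!
# Project RM (helper114): torsion-free neighbourhoods and stable spaces of endomorphisms
-/

set_option autoImplicit false

namespace Pool.Agent.Y220.RM

open Module Topology Filter Pool.Agent.Y114.RM Pool.Agent.Y114.TF

theorem tfr_abs {ℓ : ℕ} [Fact ℓ.Prime] {V : Type} [AddCommGroup V] [Module ℚ_[ℓ] V]
    [TopologicalSpace V] [IsTopologicalAddGroup V] [ContinuousSMul ℚ_[ℓ] V] [T2Space V]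
    [FiniteDimensional ℚ_[ℓ] V] {Γ : Type} [Group Γ] [TopologicalSpace Γ] [IsTopologicalGroup Γ]
    [CompactSpace Γ] (r : Γ →* End ℚ_[ℓ] V)
    (hr : ∀ (X : End ℚ_[ℓ] V) (x : V), Continuous fun γ => AdE (r γ) (r γ⁻¹) X x)
    (A : Submodule ℚ_[ℓ] (End ℚ_[ℓ] V)) (hA : ∀ γ : Γ, ∀ Y ∈ A, AdE (r γ) (r γ⁻¹) Y ∈ A)
    (hfin : ∀ γ : Γ, ∃ M : ℕ, 0 < M ∧ ∀ Y ∈ A, r γ ^ M * Y = Y * r γ ^ M) :
    ∃ Δ : Subgroup Γ, Δ.FiniteIndex ∧ ∀ γ ∈ Δ, ∀ Y ∈ A, r γ * Y = Y * r γ := by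
  have hmul : ∀ γ δ : Γ, ∀ X, AdE (r (γ * δ)) (r (γ * δ)⁻¹) X =
      AdE (r γ) (r γ⁻¹) (AdE (r δ) (r δ⁻¹) X) := by
    intro γ δ X
    simp only [AdE_apply]
    rw [mul_inv_rev, map_mul, map_mul]
    simp only [mul_assoc]
  let f : Γ →* End ℚ_[ℓ] A :=
    { toFun := fun γ => (AdE (r γ) (r γ⁻¹)).restrict (hA γ)
      map_one' := by
        refine LinearMap.ext fun X => Subtype.ext ?_
        rw [LinearMap.coe_restrict_apply, AdE_apply, inv_one, map_one, one_mul, mul_one]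
        rfl
      map_mul' := fun γ δ => by
        refine LinearMap.ext fun X => Subtype.ext ?_
        rw [LinearMap.coe_restrict_apply, Module.End.mul_apply, LinearMap.coe_restrict_apply,
          LinearMap.coe_restrict_apply, hmul] }
  have hinv : ∀ γ : Γ, r γ⁻¹ * r γ = 1 := by
    intro γ
    rw [← map_mul, inv_mul_cancel, map_one]
  have hinv' : ∀ γ : Γ, r γ * r γ⁻¹ = 1 := by
    intro γ
    rw [← map_mul, mul_inv_cancel, map_one]
  have hker : ∀ γ, f γ = 1 → ∀ Y ∈ A, r γ * Y = Y * r γ := by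
    intro γ hγ Y hY
    have h1 : r γ * (Y * r γ⁻¹) = Y :=
      congrArg Subtype.val (LinearMap.congr_fun hγ ⟨Y, hY⟩)
    calc r γ * Y = r γ * (Y * r γ⁻¹) * r γ := by
          rw [mul_assoc, mul_assoc, hinv, mul_one]
      _ = Y * r γ := by rw [h1]
  have hpow : ∀ γ, ∃ M : ℕ, 0 < M ∧ f γ ^ M = 1 := by
    intro γ
    obtain ⟨M, hM, h⟩ := hfin γ
    refine ⟨M, hM, ?_⟩
    rw [← map_pow]
    refine LinearMap.ext fun X => Subtype.ext ?_
    show r (γ ^ M) * ((X : End ℚ_[ℓ] V) * r (γ ^ M)⁻¹) = X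
    rw [← mul_assoc, map_pow, h X X.2, mul_assoc, ← map_pow, hinv', mul_one]
  let b := Module.finBasis ℚ_[ℓ] A
  let Mt : Γ → Matrix (Fin (finrank ℚ_[ℓ] A)) (Fin (finrank ℚ_[ℓ] A)) ℚ_[ℓ] := fun γ =>
    LinearMap.toMatrixAlgEquiv b (f γ)
  have hcont : ∀ i j, Continuous fun γ => Mt γ i j := by
    intro i j
    obtain ⟨c, hc⟩ := LinearMap.exists_extend (b.coord i)
    have h3 := Pool.Agent.Y620.RM.cont_functional (fun γ => AdE (r γ) (r γ⁻¹)
      (b j : End ℚ_[ℓ] V)) (hr _) c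
    refine h3.congr fun γ => ?_
    have h4 := LinearMap.congr_fun hc (f γ (b j))
    rw [LinearMap.comp_apply, Submodule.subtype_apply] at h4
    show _ = LinearMap.toMatrixAlgEquiv b (f γ) i j
    rw [LinearMap.toMatrixAlgEquiv_apply]
    exact h4
  have hMt1 : Mt 1 = 1 := by
    show LinearMap.toMatrixAlgEquiv b (f 1) = 1
    rw [map_one, map_one]
  have hε : (0 : ℝ) < (ℓ : ℝ) ^ (-2 : ℤ) := by
    have : 0 < ℓ := (Fact.out : ℓ.Prime).pos
    positivity
  have hnhds : ∀ᶠ γ in 𝓝 (1 : Γ), ∀ i j, ‖(Mt γ - 1) i j‖ ≤ (ℓ : ℝ) ^ (-2 : ℤ) := by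
    rw [Filter.eventually_all]
    intro i
    rw [Filter.eventually_all]
    intro j
    have h1 : Continuous fun γ => ‖(Mt γ - 1) i j‖ := by
      have h2 : (fun γ => ‖(Mt γ - 1) i j‖) = fun γ => ‖Mt γ i j - (1 : Matrix _ _ ℚ_[ℓ]) i j‖ := rfl
      rw [h2]
      exact ((hcont i j).sub continuous_const).norm
    have h2 : ‖(Mt 1 - 1) i j‖ < (ℓ : ℝ) ^ (-2 : ℤ) := by
      rw [hMt1, sub_self, Matrix.zero_apply, norm_zero]
      exact hε
    exact (h1.continuousAt.eventually_lt continuousAt_const h2).mono fun γ h => h.le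
  have hopen : IsOpen (f.ker : Set Γ) := by
    refine Subgroup.isOpen_of_mem_nhds _ (g := 1) ?_
    refine mem_of_superset hnhds fun γ hγ => ?_
    show f γ = 1
    obtain ⟨M, hM, hM1⟩ := hpow γ
    have h1 : (1 + (Mt γ - 1)) ^ M = 1 := by
      rw [add_sub_cancel]
      show (LinearMap.toMatrixAlgEquiv b (f γ)) ^ M = 1
      rw [← map_pow, hM1, map_one]
    have h2 := unip (Mt γ - 1) hγ hM h1
    have h3 : LinearMap.toMatrixAlgEquiv b (f γ) = LinearMap.toMatrixAlgEquiv b 1 := by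
      rw [map_one]
      exact sub_eq_zero.1 h2
    exact (LinearMap.toMatrixAlgEquiv b).injective h3
  have hfi : Finite (Γ ⧸ f.ker) := Subgroup.quotient_finite_of_isOpen _ hopen
  exact ⟨f.ker, Subgroup.finiteIndex_of_finite_quotient, fun γ hγ => hker γ hγ⟩

/-- If all elements act with finite order on a stable space of endomorphisms, then an open
subgroup acts trivially. -/
theorem tfr : S_TFR := by
  intro ℓ _ ι _ _ n Γ _ _ _ _ ρ hρ A hA hfin
  refine tfr_abs (sumRep ρ) (fun X x => ?_) A hA hfin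
  have h0 : ∀ (g : Γ → Γ), Continuous g → ∀ y : Γ → (∀ i, Fin (n i) → ℚ_[ℓ]), Continuous y →
      Continuous fun γ => sumRep ρ (g γ) (y γ) := by
    intro g hg y hy
    refine continuous_pi fun i => ?_
    have h2 : ∀ γ, sumRep ρ (g γ) (y γ) i = (LinearMap.toMatrix' (ρ i (g γ))).mulVec (y γ i) := by
      intro γ
      rw [LinearMap.toMatrix'_mulVec]
      rfl
    have h3 : Continuous fun γ => (LinearMap.toMatrix' (ρ i (g γ))).mulVec (y γ i) :=
      ((hρ i).comp hg).matrix_mulVec ((continuous_apply i).comp hy)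
    exact h3.congr fun γ => (h2 γ).symm
  have h4 : Continuous fun γ : Γ => sumRep ρ γ⁻¹ x := h0 _ continuous_inv _ continuous_const
  have h5 : Continuous X := LinearMap.continuous_of_finiteDimensional X
  exact h0 id continuous_id _ (h5.comp h4)

end Pool.Agent.Y220.RM
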